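import Mathlib
import Pool.Agent.Results.MP_078bdc_al.FinitelyInvariablyGenerated

/-! MP_078bdc_al, Q1 and Q2: extensions of (finitely) invariably generated groups by
Baumslag–Solitar groups. -/

set_option autoImplicit false

namespace Pool.Agent.Results.MP_078bdc_al.Extensions

open FinitelyInvariablyGenerated

/-- `T` invariably generates `G`. -/
def InvGen (G : Type) [Group G] (T : Set G) : Prop :=
  ∀ f : T → G, Subgroup.closure (Set.range fun s : T => (f s)⁻¹ * (s : G) * f s) = ⊤

/-- `G` is invariably generated: some subset `T` generates `G` after replacing each of its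
elements by an arbitrary conjugate. -/
def InvariablyGenerated (G : Type) [Group G] : Prop :=
  ∃ T : Set G, ∀ f : T → G,
    Subgroup.closure (Set.range fun s : T => (f s)⁻¹ * (s : G) * f s) = ⊤

section
variable {G K N : Type} [Group G] [Group K] [Group N]

lemma ext (i : N →* K) (f : K →* G) (hf : Function.Surjective f) (hi : i.range = f.ker)
    (T : Set G) (hT : InvGen G T) (U : Set N) (hU : InvGen N U) :
    InvGen K ((fun t => Function.surjInv hf t) '' T ∪ i '' U) := by
  intro c
  set L : Subgroup K := Subgroup.closure (Set.range fun s : ((fun t => Function.surjInv hf t) '' T ∪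
    i '' U : Set K) => (c s)⁻¹ * (s : K) * c s) with hL
  have h1 : L.map f = ⊤ := by
    rw [eq_top_iff, ← hT fun t => f (c ⟨Function.surjInv hf t, Or.inl ⟨t, t.2, rfl⟩⟩),
      Subgroup.closure_le]
    rintro _ ⟨t, rfl⟩
    refine ⟨_, Subgroup.subset_closure ⟨⟨Function.surjInv hf t, Or.inl ⟨t, t.2, rfl⟩⟩, rfl⟩, ?_⟩
    simp only [map_mul, map_inv]
    rw [Function.surjInv_eq hf]
  have h2 : ∀ y : K, ∃ l ∈ L, ∃ m : N, y = i m * l := by
    intro y
    obtain ⟨l, hl, hly⟩ : f y ∈ L.map f := h1 ▸ Subgroup.mem_top _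
    have h3 : y * l⁻¹ ∈ i.range := by
      rw [hi, MonoidHom.mem_ker, map_mul, map_inv, hly, mul_inv_cancel]
    obtain ⟨m, hm⟩ := h3
    exact ⟨l, hl, m, by rw [hm]; group⟩
  choose l hl m hm using h2
  have h4 : ∀ n : N, i n ∈ L := by
    have h5 : L.comap i = ⊤ := by
      rw [eq_top_iff, ← hU fun u => m (c ⟨i u, Or.inr ⟨u, u.2, rfl⟩⟩), Subgroup.closure_le]
      rintro _ ⟨u, rfl⟩
      set y := c ⟨i u, Or.inr ⟨u, u.2, rfl⟩⟩ with hy
      have h6 : y⁻¹ * i u * y ∈ L :=
        Subgroup.subset_closure ⟨⟨i u, Or.inr ⟨u, u.2, rfl⟩⟩, rfl⟩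
      have h7 : l y * (y⁻¹ * i u * y) * (l y)⁻¹ ∈ L :=
        L.mul_mem (L.mul_mem (hl y) h6) (L.inv_mem (hl y))
      have h8 : l y * (y⁻¹ * i u * y) * (l y)⁻¹ = (i (m y))⁻¹ * i u * i (m y) := by
        have h9 := hm y
        have h10 : l y = (i (m y))⁻¹ * y := by
          rw [eq_inv_mul_iff_mul_eq]
          exact h9.symm
        rw [h10]
        group
      rw [h8] at h7
      change i ((m y)⁻¹ * (u : N) * m y) ∈ L
      rw [map_mul, map_mul, map_inv]
      exact h7
    intro n
    exact (h5 ▸ Subgroup.mem_top n : n ∈ L.comap i)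
  rw [eq_top_iff]
  intro y _
  rw [hm y]
  exact L.mul_mem (h4 _) (hl y)

end

/-- Let `m, n ≥ 2` be coprime and let `K` be a group with a surjective homomorphism `f` to the
Baumslag–Solitar group `BS(m,n)`, whose kernel is the image of a homomorphism `i : N → K`. If `N`
is (finitely) invariably generated, then so is `K`; and `K` has an action of general type on a
geodesic hyperbolic space. In particular this holds for `K = BS(m,n) × N`. -/
theorem result : ∀ m n : ℕ, 2 ≤ m → 2 ≤ n → Nat.Coprime m n →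
    (∀ (N K : Type) [Group N] [Group K] (i : N →* K) (f : K →* BS m n),
      Function.Surjective f → i.range = f.ker →
        (FinInvariablyGenerated N → FinInvariablyGenerated K) ∧
        (InvariablyGenerated N → InvariablyGenerated K) ∧
        ∃ (S : Type) (_ : MetricSpace S) (φ : K →* (S ≃ᵢ S)),
          GeodesicSpace S ∧ GromovHyperbolic S ∧ GeneralType φ) ∧
    (∀ (N : Type) [Group N], 
        (FinInvariablyGenerated N → FinInvariablyGenerated (BS m n × N)) ∧
        (InvariablyGenerated N → InvariablyGenerated (BS m n × N)) ∧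
        ∃ (S : Type) (_ : MetricSpace S) (φ : (BS m n × N) →* (S ≃ᵢ S)),
          GeodesicSpace S ∧ GromovHyperbolic S ∧ GeneralType φ) := by
  intro m n hm hn hmn
  obtain ⟨_, ⟨T, hTf, hT⟩, S, _, φ, hS1, hS2, g, h, hg, hh, hgh⟩ :=
    FinitelyInvariablyGenerated.result m n hm hn hmn
  have key : ∀ (N K : Type) [Group N] [Group K] (i : N →* K) (f : K →* BS m n),
      Function.Surjective f → i.range = f.ker →
        (FinInvariablyGenerated N → FinInvariablyGenerated K) ∧
        (InvariablyGenerated N → InvariablyGenerated K) ∧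
        ∃ (S : Type) (_ : MetricSpace S) (φ : K →* (S ≃ᵢ S)),
          GeodesicSpace S ∧ GromovHyperbolic S ∧ GeneralType φ := by
    intro N K _ _ i f hf hi
    refine ⟨?_, ?_, S, inferInstance, φ.comp f, hS1, hS2, ?_⟩
    · rintro ⟨U, hUf, hU⟩
      exact ⟨_, (hTf.image _).union (hUf.image _), ext i f hf hi T hT U hU⟩
    · rintro ⟨U, hU⟩
      exact ⟨_, ext i f hf hi T hT U hU⟩
    · obtain ⟨g', rfl⟩ := hf g
      obtain ⟨h', rfl⟩ := hf h
      exact ⟨g', h', hg, hh, hgh⟩
  refine ⟨key, fun N _ => key N (BS m n × N) (MonoidHom.inr (BS m n) N)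
    (MonoidHom.fst (BS m n) N) Prod.fst_surjective ?_⟩
  ext ⟨x, y⟩
  rw [MonoidHom.mem_ker]
  constructor
  · rintro ⟨z, hz⟩
    exact (congrArg Prod.fst hz).symm
  · intro hx
    exact ⟨y, Prod.ext (Eq.symm hx) rfl⟩

end Pool.Agent.Results.MP_078bdc_al.Extensions
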